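import Mathlib

set_option autoImplicit false

open Set Filter Topology

namespace Pool.Agent.V11293.ACH

/-- the defect of the `k`-th even term -/
noncomputable def dl (k : ℕ) : ℝ := 1 / (4 ^ k * (4 ^ k + 1))

/-- the scale `4^(-n)` -/
noncomputable def sc (n : ℕ) : ℝ := (1 / 4 : ℝ) ^ n

lemma sc_pos (n : ℕ) : 0 < sc n := by unfold sc; positivity

lemma sc_succ (n : ℕ) : sc (n + 1) = sc n / 4 := by unfold sc; rw [pow_succ]; ring

lemma sc_eq (n : ℕ) : sc n = 1 / 4 ^ n := by unfold sc; rw [one_div_pow]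

lemma dl_pos (k : ℕ) : 0 < dl k := by unfold dl; positivity

lemma dl_eq (k : ℕ) : dl k = sc k - 1 / (4 ^ k + 1) := by
  unfold dl
  rw [sc_eq]
  have h : (0 : ℝ) < 4 ^ k := by positivity
  field_simp
  ring

lemma dl_succ (k : ℕ) : dl (k + 1) ≤ dl k / 4 := by
  unfold dl
  rw [pow_succ]
  have h : (0 : ℝ) < 4 ^ k := by positivity
  rw [div_div, div_le_div_iff₀ (by positivity) (by positivity)]
  nlinarith

lemma dl_le (k : ℕ) : dl k ≤ (1 / 16 : ℝ) ^ k := by
  unfold dl
  have h : (0 : ℝ) < 4 ^ k := by positivity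
  have h16 : ((1 : ℝ) / 16) ^ k = 1 / (4 ^ k * 4 ^ k) := by
    rw [one_div_pow, ← mul_pow]; norm_num
  rw [h16]
  apply one_div_le_one_div_of_le (by positivity)
  nlinarith

lemma dl_ge (k : ℕ) : (1 / 16 : ℝ) ^ k / 2 ≤ dl k := by
  unfold dl
  have h : (1 : ℝ) ≤ 4 ^ k := one_le_pow₀ (by norm_num)
  have h16 : ((1 : ℝ) / 16) ^ k / 2 = 1 / (2 * (4 ^ k * 4 ^ k)) := by
    rw [one_div_pow, ← mul_pow, div_div]; norm_num; ring
  rw [h16]
  apply one_div_le_one_div_of_le (by positivity)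
  nlinarith

lemma dl_summable : Summable dl :=
  Summable.of_nonneg_of_le (fun k => (dl_pos k).le) dl_le
    (summable_geometric_of_lt_one (by norm_num) (by norm_num))

/-- the tail of the defects -/
noncomputable def rh (n : ℕ) : ℝ := ∑' k, dl (n + 1 + k)

lemma dl_summable' (n : ℕ) : Summable (fun k => dl (n + 1 + k)) := by
  have := (summable_nat_add_iff (n + 1)).2 dl_summable
  refine this.congr (fun k => ?_)
  rw [add_comm]

lemma rh_succ (n : ℕ) : rh n = dl (n + 1) + rh (n + 1) := by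
  unfold rh
  rw [(dl_summable' n).tsum_eq_zero_add]
  congr 1
  apply tsum_congr
  intro k
  congr 1
  ring

lemma rh_pos (n : ℕ) : 0 < rh n := by
  unfold rh
  exact (dl_summable' n).tsum_pos (fun k => (dl_pos _).le) 0 (dl_pos _)

lemma rh_anti {m n : ℕ} (h : m ≤ n) : rh n ≤ rh m := by
  induction n, h using Nat.le_induction with
  | base => exact le_rfl
  | succ n _ ih =>
    have := rh_succ n
    have := dl_pos (n + 1)
    linarith

lemma rh_quarter (n : ℕ) : rh (n + 1) ≤ rh n / 4 := by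
  unfold rh
  rw [← tsum_div_const]
  refine (dl_summable' (n + 1)).tsum_le_tsum (fun k => ?_) ((dl_summable' n).div_const _)
  have := dl_succ (n + 1 + k)
  rw [show n + 1 + 1 + k = n + 1 + k + 1 by ring]
  exact this

lemma rh_pow (m K : ℕ) : rh (m + K) ≤ rh m / 4 ^ K := by
  induction K with
  | zero => simp
  | succ K ih =>
    rw [← add_assoc]
    refine (rh_quarter (m + K)).trans ?_
    rw [pow_succ, ← div_div]
    exact div_le_div_of_nonneg_right ih (by norm_num)

lemma rh_le (n : ℕ) : rh n ≤ (1 / 16 : ℝ) ^ n / 15 := by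
  unfold rh
  have h1 : Summable (fun k : ℕ => (1 / 16 : ℝ) ^ (n + 1 + k)) := by
    have := (summable_geometric_of_lt_one (r := (1 / 16 : ℝ)) (by norm_num) (by norm_num)).mul_left
      ((1 / 16 : ℝ) ^ (n + 1))
    refine this.congr (fun k => ?_)
    exact (pow_add _ _ _).symm
  have h2 : ∑' k : ℕ, (1 / 16 : ℝ) ^ (n + 1 + k) = (1 / 16 : ℝ) ^ n / 15 := by
    have : (fun k : ℕ => (1 / 16 : ℝ) ^ (n + 1 + k)) = fun k => (1 / 16 : ℝ) ^ (n + 1) * (1 / 16 : ℝ) ^ k := by
      ext k; rw [pow_add]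
    rw [this, tsum_mul_left, tsum_geometric_of_lt_one (by norm_num) (by norm_num), pow_succ]
    norm_num
    ring
  rw [← h2]
  exact (dl_summable' n).tsum_le_tsum (fun k => dl_le _) h1

lemma rh_ge (n : ℕ) : (1 / 16 : ℝ) ^ (n + 1) / 2 ≤ rh n := by
  have := rh_succ n
  have := rh_pos (n + 1)
  have := dl_ge (n + 1)
  linarith

lemma sc_two (n : ℕ) : sc (2 * n) = (1 / 16 : ℝ) ^ n := by
  unfold sc
  rw [pow_mul]
  norm_num

/-! ### the sets `T n` -/

/-- the value of digit `d` at place `k` -/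
noncomputable def fv (k d : ℕ) : ℝ := d * sc k - (d % 2 : ℕ) * dl k

/-- sums of the blocks beyond `n` -/
def T (n : ℕ) : Set ℝ := {s | ∃ c : ℕ → ℕ, (∀ k, c k ≤ 3) ∧ HasSum (fun k => fv (n + 1 + k) (c k)) s}

lemma dl_le_sc (k : ℕ) : dl k ≤ sc k := by
  rw [dl_eq]
  have : (0 : ℝ) < 1 / (4 ^ k + 1) := by positivity
  linarith

lemma fv_nonneg (k d : ℕ) : 0 ≤ fv k d := by
  unfold fv
  rcases Nat.eq_zero_or_pos d with rfl | hd
  · simp
  have h1 : (1 : ℝ) ≤ d := by exact_mod_cast hd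
  have h2 : ((d % 2 : ℕ) : ℝ) ≤ 1 := by
    have : d % 2 ≤ 1 := by omega
    exact_mod_cast this
  have h3 := dl_le_sc k
  have h4 := dl_pos k
  have h5 := sc_pos k
  have h6 : ((d % 2 : ℕ) : ℝ) * dl k ≤ 1 * dl k := mul_le_mul_of_nonneg_right h2 h4.le
  have h7 : 1 * sc k ≤ (d : ℝ) * sc k := mul_le_mul_of_nonneg_right h1 h5.le
  linarith

lemma fv_le (k d : ℕ) (hd : d ≤ 3) : fv k d ≤ 3 * sc k - dl k := by
  unfold fv
  have h3 := dl_le_sc k
  have h4 := dl_pos k
  have h5 := sc_pos k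
  interval_cases d <;> norm_num <;> linarith

lemma T_le {n : ℕ} {s : ℝ} (hs : s ∈ T n) : 0 ≤ s ∧ s ≤ sc n - rh n := by
  obtain ⟨c, hc, hsum⟩ := hs
  refine ⟨hsum.nonneg (fun k => fv_nonneg _ _), ?_⟩
  have h1 : HasSum (fun k : ℕ => 3 * sc (n + 1 + k)) (sc n) := by
    have h := (hasSum_geometric_of_lt_one (r := (1 / 4 : ℝ)) (by norm_num) (by norm_num)).mul_left
      (3 * sc (n + 1))
    have h2 : 3 * sc (n + 1) * (1 - 1 / 4 : ℝ)⁻¹ = sc n := by
      rw [sc_succ]; ring
    rw [h2] at h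
    have h3 : (fun k : ℕ => 3 * sc (n + 1 + k)) = fun k => 3 * sc (n + 1) * (1 / 4 : ℝ) ^ k := by
      ext k; unfold sc; ring
    rw [h3]
    exact h
  have h2 : HasSum (fun k : ℕ => 3 * sc (n + 1 + k) - dl (n + 1 + k)) (sc n - rh n) :=
    h1.sub (dl_summable' n).hasSum
  exact hasSum_le (fun k => fv_le _ _ (hc k)) hsum h2

lemma T_step {n : ℕ} {s : ℝ} (hs : s ∈ T n) : ∃ d ≤ 3, s - fv (n + 1) d ∈ T (n + 1) := by
  obtain ⟨c, hc, hsum⟩ := hs
  refine ⟨c 0, hc 0, fun k => c (k + 1), fun k => hc _, ?_⟩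
  have h := (hasSum_nat_add_iff' 1).2 hsum
  simp only [Finset.range_one, Finset.sum_singleton, add_zero] at h
  have h2 : (fun k => fv (n + 1 + 1 + k) (c (k + 1))) = fun k => fv (n + 1 + (k + 1)) (c (k + 1)) := by
    ext k; congr 1; ring
  rw [h2]
  exact h

/-! ### the perturbation of the left end points -/

/-- the perturbation of block `j` at scale `N` -/
noncomputable def Ph : ℕ → ℕ → ℝ
  | 0, _ => 0
  | N + 1, j => (j % 2 : ℕ) * dl (N + 1) + Ph N (j / 4)

lemma Ph_step (N j d : ℕ) (hd : d ≤ 3) : Ph (N + 1) (4 * j + d) = (d % 2 : ℕ) * dl (N + 1) + Ph N j := by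
  rw [Ph, show (4 * j + d) % 2 = d % 2 by omega, show (4 * j + d) / 4 = j by omega]

lemma Ph_nonneg (N j : ℕ) : 0 ≤ Ph N j := by
  induction N generalizing j with
  | zero => simp [Ph]
  | succ N ih =>
    rw [Ph]
    have := ih (j / 4)
    have := dl_pos (N + 1)
    positivity

lemma Ph_zero (N : ℕ) : Ph N 0 = 0 := by
  induction N with
  | zero => simp [Ph]
  | succ N ih => rw [Ph]; simp [ih]

lemma Ph_le {n N : ℕ} (h : n ≤ N) (j : ℕ) (hj : j < 4 ^ (N - n)) : Ph N j ≤ rh n - rh N := by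
  induction N, h using Nat.le_induction generalizing j with
  | base =>
    have : j = 0 := by simpa using hj
    subst this
    rw [Ph_zero]; simp
  | succ N hN ih =>
    rw [Ph]
    have h1 : j / 4 < 4 ^ (N - n) := by
      rw [show N + 1 - n = N - n + 1 by omega, pow_succ] at hj
      omega
    have h2 := ih (j / 4) h1
    have h3 := rh_succ N
    have h4 := dl_pos (N + 1)
    have h5 : ((j % 2 : ℕ) : ℝ) ≤ 1 := by
      have : j % 2 ≤ 1 := by omega
      exact_mod_cast this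
    have h6 : ((j % 2 : ℕ) : ℝ) * dl (N + 1) ≤ 1 * dl (N + 1) := mul_le_mul_of_nonneg_right h5 h4.le
    linarith

lemma blocks {n N : ℕ} (h : n ≤ N) {x : ℝ} (hx : x ∈ T n) :
    ∃ j : ℕ, j < 4 ^ (N - n) ∧ x - j * sc N + Ph N j ∈ T N := by
  induction N, h using Nat.le_induction with
  | base => exact ⟨0, by simp, by simpa [Ph_zero] using hx⟩
  | succ N hN ih =>
    obtain ⟨j, hj, hT⟩ := ih
    obtain ⟨d, hd, hT2⟩ := T_step hT
    refine ⟨4 * j + d, ?_, ?_⟩
    · rw [show N + 1 - n = N - n + 1 by omega, pow_succ]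
      omega
    · rw [Ph_step _ _ _ hd]
      have : x - ((4 * j + d : ℕ) : ℝ) * sc (N + 1) + ((d % 2 : ℕ) * dl (N + 1) + Ph N j)
          = x - j * sc N + Ph N j - fv (N + 1) d := by
        unfold fv
        rw [sc_succ]
        push_cast
        ring
      rw [this]
      exact hT2

lemma Ph_gap (m r M : ℕ) : Ph (m + 1 + r) (4 ^ r * (4 * M + 2) - 1)
    = Ph (m + 1 + r) (4 ^ r * (4 * M + 2)) + rh m - rh (m + 1 + r) := by
  induction r with
  | zero =>
    simp only [pow_zero, one_mul, add_zero]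
    rw [show 4 * M + 2 - 1 = 4 * M + 1 by omega, Ph_step _ _ _ (by norm_num), Ph_step _ _ _ (by norm_num),
      rh_succ m]
    norm_num
    ring
  | succ r ih =>
    have hp : 0 < 4 ^ r * (4 * M + 2) := by positivity
    have e1 : 4 ^ (r + 1) * (4 * M + 2) = 4 * (4 ^ r * (4 * M + 2)) + 0 := by ring
    have e2 : 4 ^ (r + 1) * (4 * M + 2) - 1 = 4 * (4 ^ r * (4 * M + 2) - 1) + 3 := by
      rw [e1]; omega
    rw [e2, e1, ← add_assoc, Ph_step _ _ _ (by norm_num), Ph_step _ _ _ (by norm_num), ih,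
      rh_succ (m + 1 + r)]
    norm_num
    ring

lemma Ph_fine (a : ℕ) : ∀ (N B : ℕ), a ≤ N → 1 ≤ B → ¬ (4 ^ a ∣ B) →
    Ph N B ≤ Ph N (B - 1) + rh (N - a) := by
  induction a with
  | zero => intro N B _ _ h; simp at h
  | succ a ih =>
    intro N B hN hB h
    obtain ⟨N, rfl⟩ : ∃ N', N = N' + 1 := ⟨N - 1, by omega⟩
    have hrh := rh_pos (N + 1 - (a + 1))
    have hdl := dl_pos (N + 1)
    rcases Nat.eq_zero_or_pos (B % 4) with h0 | h0
    · have e1 : B = 4 * (B / 4) + 0 := by omega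
      have e2 : B - 1 = 4 * (B / 4 - 1) + 3 := by omega
      have hB' : 1 ≤ B / 4 := by omega
      have h' : ¬ (4 ^ a ∣ B / 4) := by
        intro hd
        apply h
        rw [pow_succ, mul_comm]
        conv_rhs => rw [show B = 4 * (B / 4) by omega]
        exact Nat.mul_dvd_mul_left 4 hd
      have := ih N (B / 4) (by omega) hB' h'
      rw [e2]
      conv_lhs => rw [e1]
      rw [Ph_step _ _ _ (by norm_num), Ph_step _ _ _ (by norm_num),
        show N + 1 - (a + 1) = N - a by omega]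
      norm_num
      linarith
    · have e1 : B = 4 * (B / 4) + (B % 4) := by omega
      have e2 : B - 1 = 4 * (B / 4) + (B % 4 - 1) := by omega
      have hr : dl (N + 1) ≤ rh (N + 1 - (a + 1)) := by
        have h1 := rh_succ N
        have h2 := rh_pos (N + 1)
        have h3 : rh N ≤ rh (N + 1 - (a + 1)) := rh_anti (by omega)
        linarith
      rw [e2]
      conv_lhs => rw [e1]
      rw [Ph_step _ _ _ (by omega), Ph_step _ _ _ (by omega)]
      have h5 : ((B % 4 % 2 : ℕ) : ℝ) ≤ 1 := by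
        have : B % 4 % 2 ≤ 1 := by omega
        exact_mod_cast this
      have h6 : ((B % 4 % 2 : ℕ) : ℝ) * dl (N + 1) ≤ 1 * dl (N + 1) := mul_le_mul_of_nonneg_right h5 hdl.le
      have h7 : 0 ≤ (((B % 4 - 1) % 2 : ℕ) : ℝ) * dl (N + 1) := by positivity
      linarith

/-- Near the point `v + B * sc N`, on a suitable subinterval only one block of `v + T n` is left. -/
lemma single {n N : ℕ} (hn : n ≤ N) (hr : rh n ≤ sc N / 8) (v p q c : ℝ) (hpq : p < q) (hc : 0 ≤ c)
    (B : ℤ) (hp : v + B * sc N - 3 / 4 * sc N ≤ p) (hq : q ≤ v + B * sc N + 3 / 4 * sc N)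
    (hB : ∀ b : ℕ, (b : ℤ) = B → 1 ≤ b → Ph N b ≤ Ph N (b - 1) + rh N + c) :
    ∃ p' q' v' : ℝ, p ≤ p' ∧ q' ≤ q ∧ (q - p) / 2 - c ≤ q' - p' ∧
      ∀ x, p' < x → x < q' → x - v ∈ T n → x - v' ∈ T N := by
  have hsc := sc_pos N
  -- the block index
  have key : ∀ x, p < x → x < q → x - v ∈ T n → ∃ j : ℕ, ((j : ℤ) = B ∨ (j : ℤ) = B - 1) ∧
      x - v - j * sc N + Ph N j ∈ T N := by
    intro x hx1 hx2 hx
    obtain ⟨j, hj, hT⟩ := blocks hn hx
    refine ⟨j, ?_, hT⟩
    obtain ⟨h1, h2⟩ := T_le hT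
    have h3 := Ph_le hn j hj
    have h4 := Ph_nonneg N j
    have h5 := rh_pos N
    have h6 : ((j : ℝ) - (B + 1)) * sc N < 0 := by nlinarith
    have h7 : 0 < ((j : ℝ) - (B - 2)) * sc N := by nlinarith
    have h8 : (j : ℝ) < B + 1 := by
      by_contra hcon
      push Not at hcon
      have : 0 ≤ ((j : ℝ) - (B + 1)) * sc N := mul_nonneg (by linarith) hsc.le
      linarith
    have h9 : (B : ℝ) - 2 < j := by
      by_contra hcon
      push Not at hcon
      have : ((j : ℝ) - (B - 2)) * sc N ≤ 0 := mul_nonpos_of_nonpos_of_nonneg (by linarith) hsc.le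
      linarith
    have h10 : (j : ℤ) < B + 1 := by exact_mod_cast h8
    have h11 : B - 2 < (j : ℤ) := by exact_mod_cast h9
    omega
  rcases le_or_gt B 0 with hB0 | hB0
  · refine ⟨p, q, v + (B.toNat : ℕ) * sc N - Ph N B.toNat, le_rfl, le_rfl, by linarith, ?_⟩
    intro x hx1 hx2 hx
    obtain ⟨j, hj, hT⟩ := key x hx1 hx2 hx
    have : j = B.toNat := by omega
    rw [← this]
    convert hT using 1
    ring
  · obtain ⟨b, hb⟩ : ∃ b : ℕ, (b : ℤ) = B := ⟨B.toNat, by omega⟩
    have hb1 : 1 ≤ b := by omega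
    have hBb := hB b hb hb1
    have hBr : (B : ℝ) = b := by rw [← hb]; simp
    have hbm : ((b - 1 : ℕ) : ℝ) = b - 1 := by rw [Nat.cast_sub hb1]; simp
    rcases le_or_gt ((p + q) / 2) (v + b * sc N - Ph N b) with hm | hm
    · refine ⟨p, (p + q) / 2, v + (b - 1 : ℕ) * sc N - Ph N (b - 1), le_rfl, by linarith, by linarith, ?_⟩
      intro x hx1 hx2 hx
      obtain ⟨j, hj, hT⟩ := key x hx1 (by linarith) hx
      have hj' : j = b - 1 := by
        rcases hj with hj | hj
        · exfalso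
          have : j = b := by omega
          rw [this] at hT
          have := (T_le hT).1
          linarith
        · omega
      rw [← hj']
      convert hT using 1
      ring
    · refine ⟨(p + q) / 2 + c, q, v + b * sc N - Ph N b, by linarith, le_rfl, by linarith, ?_⟩
      intro x hx1 hx2 hx
      obtain ⟨j, hj, hT⟩ := key x (by linarith) hx2 hx
      have hj' : j = b := by
        rcases hj with hj | hj
        · omega
        · exfalso
          have : j = b - 1 := by omega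
          rw [this] at hT
          have := (T_le hT).2
          rw [hbm] at this
          linarith
      rw [← hj']
      convert hT using 1
      ring

/-- iteration of `single` over a finite set of translates -/
lemma iter {n N : ℕ} (hn : n ≤ N) (hr : rh n ≤ sc N / 8) (g c : ℝ) (hc : 0 ≤ c) (W : Finset ℝ)
    (B : ℝ → ℤ) (hB0 : ∀ v ∈ W, |v + B v * sc N - g| ≤ sc N / 2)
    (hB : ∀ v ∈ W, ∀ b : ℕ, (b : ℤ) = B v → 1 ≤ b → Ph N b ≤ Ph N (b - 1) + rh N + c)
    (p q : ℝ) (hp : g - sc N / 4 ≤ p) (hq : q ≤ g)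
    (hlen : 2 * c < (q - p) / 2 ^ W.card) :
    ∃ p' q' : ℝ, ∃ W' : Finset ℝ, p ≤ p' ∧ q' ≤ q ∧ (q - p) / 2 ^ W.card - 2 * c ≤ q' - p' ∧
      W'.card ≤ W.card ∧ ∀ x, p' < x → x < q' → ∀ v ∈ W, x - v ∈ T n → ∃ v' ∈ W', x - v' ∈ T N := by
  classical
  induction W using Finset.induction_on with
  | empty => exact ⟨p, q, ∅, le_rfl, le_rfl, by simp; linarith, le_rfl, by simp⟩
  | insert v W hv ih =>
    rw [Finset.card_insert_of_notMem hv, pow_succ] at hlen
    have hlen' : 2 * c < (q - p) / 2 ^ W.card := by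
      have h0 : 0 < (2 : ℝ) ^ W.card := by positivity
      have h1 : (q - p) / (2 ^ W.card * 2) = (q - p) / 2 ^ W.card / 2 := by rw [div_div]
      rw [h1] at hlen
      linarith
    obtain ⟨p1, q1, W', h1, h2, h3, h4, h5⟩ := ih (fun w hw => hB0 w (Finset.mem_insert_of_mem hw))
      (fun w hw => hB w (Finset.mem_insert_of_mem hw)) hlen'
    have hsc := sc_pos N
    have hv0 := abs_le.1 (hB0 v (Finset.mem_insert_self _ _))
    have hlen2 : (q - p) / (2 ^ W.card * 2) = (q - p) / 2 ^ W.card / 2 := by rw [div_div]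
    obtain ⟨p2, q2, v', k1, k2, k3, k4⟩ := single hn hr v p1 q1 c (by linarith) hc (B v)
      (by linarith [hv0.1, hv0.2]) (by linarith [hv0.1, hv0.2]) (hB v (Finset.mem_insert_self _ _))
    refine ⟨p2, q2, insert v' W', by linarith, by linarith, ?_, ?_, ?_⟩
    · rw [Finset.card_insert_of_notMem hv, pow_succ, hlen2]
      linarith
    · rw [Finset.card_insert_of_notMem hv]
      exact (Finset.card_insert_le _ _).trans (by omega)
    · intro x hx1 hx2 w hw hxw
      rcases Finset.mem_insert.1 hw with rfl | hw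
      · exact ⟨v', Finset.mem_insert_self _ _, k4 x hx1 hx2 hxw⟩
      · obtain ⟨w', hw', hT⟩ := h5 x (by linarith) (by linarith) w hw hxw
        exact ⟨w', Finset.mem_insert_of_mem hw', hT⟩

lemma sc_anti {m n : ℕ} (h : m ≤ n) : sc n ≤ sc m := by
  unfold sc
  exact pow_le_pow_of_le_one (by norm_num) (by norm_num) h

lemma sc_add (m n : ℕ) : sc (m + n) = sc m * sc n := by unfold sc; rw [pow_add]

lemma four_sc (n : ℕ) : (4 : ℝ) ^ n * sc n = 1 := by
  unfold sc; rw [← mul_pow]; norm_num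

/-- a gap of `u + T n` close to the middle of every block of scale `m` -/
lemma gap {n m r N : ℕ} (hnm : n ≤ m) (hN : N = m + 1 + r) (hr : rh n ≤ sc N / 8) (u : ℝ) (M : ℤ) :
    ∃ φ : ℝ, 0 ≤ φ ∧ φ ≤ rh n ∧ ∀ x, u + (M + 1 / 2) * sc m - φ - rh m < x →
      x < u + (M + 1 / 2) * sc m - φ → x - u ∉ T n := by
  have hscm := sc_pos m
  have hscN := sc_pos N
  have hrm : rh m ≤ rh n := rh_anti hnm
  have hrm0 := rh_pos m
  have hrn0 := rh_pos n
  have hNm : sc N ≤ sc m := sc_anti (by omega)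
  rcases lt_or_ge M 0 with hM | hM
  · refine ⟨0, le_rfl, hrn0.le, ?_⟩
    intro x _ hx2 hT
    have h1 := (T_le hT).1
    have h2 : (M : ℝ) ≤ -1 := by
      have : M ≤ -1 := by omega
      exact_mod_cast this
    have h3 : ((M : ℝ) + 1 / 2) * sc m ≤ (-1 + 1 / 2) * sc m := mul_le_mul_of_nonneg_right (by linarith) hscm.le
    linarith
  rcases le_or_gt ((4 : ℤ) ^ (m - n)) M with hM2 | hM2
  · refine ⟨0, le_rfl, hrn0.le, ?_⟩
    intro x hx1 _ hT
    have h1 := (T_le hT).2
    have h2 : (4 : ℝ) ^ (m - n) ≤ M := by exact_mod_cast hM2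
    have h3 : ((4 : ℝ) ^ (m - n) + 1 / 2) * sc m ≤ (M + 1 / 2) * sc m :=
      mul_le_mul_of_nonneg_right (by linarith) hscm.le
    have h4 : (4 : ℝ) ^ (m - n) * sc m = sc n := by
      have : sc m = sc (m - n) * sc n := by rw [← sc_add]; congr 1; omega
      rw [this, ← mul_assoc, four_sc, one_mul]
    have h5 : ((4 : ℝ) ^ (m - n) + 1 / 2) * sc m = sc n + sc m / 2 := by rw [add_mul, h4]; ring
    linarith
  obtain ⟨M', rfl⟩ : ∃ M' : ℕ, (M' : ℤ) = M := ⟨M.toNat, by omega⟩
  have hM3 : M' < 4 ^ (m - n) := by exact_mod_cast hM2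
  obtain ⟨b, hb⟩ : ∃ b, b = 4 ^ r * (4 * M' + 2) := ⟨_, rfl⟩
  have hb1 : 2 ≤ b := by
    rw [hb]
    have : 1 ≤ 4 ^ r := Nat.one_le_pow _ _ (by norm_num)
    nlinarith
  have hbN : b < 4 ^ (N - n) := by
    rw [hb, show N - n = r + (m - n + 1) by omega, pow_add]
    apply Nat.mul_lt_mul_of_pos_left _ (by positivity)
    rw [pow_succ]
    omega
  have hbs : (b : ℝ) * sc N = ((M' : ℤ) + 1 / 2) * sc m := by
    rw [hb, hN, sc_add, sc_succ]
    push_cast
    have := four_sc r
    calc (4 : ℝ) ^ r * (4 * M' + 2) * (sc m / 4 * sc r) = (4 ^ r * sc r) * ((4 * M' + 2) * (sc m / 4)) := by ring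
      _ = (M' + 1 / 2) * sc m := by rw [this]; ring
  have hnN : n ≤ N := by omega
  have hP := Ph_le hnN b hbN
  have hrN := rh_pos N
  have hgap := Ph_gap m r M'
  rw [← hN, ← hb] at hgap
  refine ⟨Ph N b, Ph_nonneg _ _, by linarith, ?_⟩
  intro x hx1 hx2 hT
  rw [← hbs] at hx1 hx2
  obtain ⟨j, hj, hTj⟩ := blocks hnN hT
  obtain ⟨h1, h2⟩ := T_le hTj
  have h3 := Ph_le hnN j hj
  have h4 := Ph_nonneg N j
  rcases lt_trichotomy j b with hjb | hjb | hjb
  · rcases Nat.eq_or_lt_of_le (Nat.le_sub_one_of_lt hjb) with h | h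
    · have hc : ((j : ℕ) : ℝ) = b - 1 := by rw [h, Nat.cast_sub (by omega)]; simp
      rw [← h] at hgap
      rw [hc] at h1 h2
      linarith
    · have hc : (j : ℝ) ≤ b - 2 := by
        have : j + 2 ≤ b := by omega
        have : ((j + 2 : ℕ) : ℝ) ≤ b := by exact_mod_cast this
        push_cast at this
        linarith
      have h5 : (j : ℝ) * sc N ≤ (b - 2) * sc N := mul_le_mul_of_nonneg_right hc hscN.le
      linarith
  · rw [hjb] at h1
    linarith
  · have hc : (b : ℝ) + 1 ≤ j := by exact_mod_cast hjb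
    have h6 := Ph_nonneg N b
    have h5 : ((b : ℝ) + 1) * sc N ≤ j * sc N := mul_le_mul_of_nonneg_right hc hscN.le
    linarith

/-- no interval of length `ε 4^(-n)` is covered by `s` translates of `T n`, for large `n` -/
def NC (s : ℕ) : Prop := ∀ ε : ℝ, 0 < ε → ∃ n0 : ℕ, ∀ n, n0 ≤ n → ∀ W : Finset ℝ, W.card ≤ s →
  ∀ p q : ℝ, p + ε * sc n ≤ q → ¬ (∀ x, p < x → x < q → ∃ v ∈ W, x - v ∈ T n)

lemma NC_zero : NC 0 := by
  intro ε hε
  refine ⟨0, fun n _ W hW p q hpq hcov => ?_⟩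
  have hW0 : W = ∅ := Finset.card_eq_zero.1 (Nat.le_zero.1 hW)
  subst hW0
  have := mul_pos hε (sc_pos n)
  obtain ⟨v, hv, _⟩ := hcov ((p + q) / 2) (by linarith) (by linarith)
  simp at hv

lemma pigeon (s : ℕ) (W : Finset ℝ) (hW : W.card ≤ s) (bad : ℝ → ℕ → Prop)
    (huniq : ∀ v ∈ W, ∀ i j, i < j → j ≤ s → bad v i → bad v j → False) :
    ∃ i ≤ s, ∀ v ∈ W, ¬ bad v i := by
  classical
  by_contra hcon
  push Not at hcon
  choose! f hf hbad using hcon
  obtain ⟨i, hi, j, hj, hij, he⟩ := Finset.exists_ne_map_eq_of_card_lt_of_maps_to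
    (s := Finset.range (s + 1)) (t := W) (by rw [Finset.card_range]; omega)
    (f := f) (fun i hi => hf i (by rw [Finset.mem_coe, Finset.mem_range] at hi; omega))
  rw [Finset.mem_range] at hi hj
  rcases lt_or_gt_of_ne hij with h | h
  · exact huniq (f i) (hf i (by omega)) i j h (by omega) (hbad i (by omega)) (he ▸ hbad j (by omega))
  · exact huniq (f i) (hf i (by omega)) j i h (by omega) (he ▸ hbad j (by omega)) (hbad i (by omega))

lemma NC_succ (s : ℕ) (ih : NC s) : NC (s + 1) := by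
  classical
  intro ε hε
  obtain ⟨α, hα⟩ := exists_pow_lt_of_lt_one (show (0 : ℝ) < ε / 8 by linarith)
    (show (1 / 4 : ℝ) < 1 by norm_num)
  obtain ⟨K, hK⟩ : ∃ K, K = s + 1 := ⟨_, rfl⟩
  obtain ⟨ε', hε'⟩ : ∃ ε' : ℝ, ε' = (1 / 16 : ℝ) ^ (α + s * K + 1) / 2 / 2 ^ (s + 1) := ⟨_, rfl⟩
  have hε'0 : 0 < ε' := by rw [hε']; positivity
  obtain ⟨n1, hn1⟩ := ih ε' hε'0
  refine ⟨max n1 (α + (s + 1) * K), fun n hn W hW p q hpq hcov => ?_⟩
  have hnn1 : n1 ≤ n := le_trans (le_max_left _ _) hn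
  have hnα : α + (s + 1) * K ≤ n := le_trans (le_max_right _ _) hn
  obtain ⟨N, hN⟩ : ∃ N, N = 2 * n := ⟨_, rfl⟩
  have hscn := sc_pos n
  have hscN := sc_pos N
  have hr : rh n ≤ sc N / 8 := by
    rw [hN, sc_two]
    have := rh_le n
    have h0 : (0 : ℝ) < (1 / 16) ^ n := by positivity
    linarith
  -- the case of an empty family
  rcases W.eq_empty_or_nonempty with hW0 | ⟨u, hu⟩
  · subst hW0
    have := mul_pos hε hscn
    obtain ⟨v, hv, _⟩ := hcov ((p + q) / 2) (by linarith) (by linarith)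
    simp at hv
  obtain ⟨W', hW'⟩ : ∃ W', W' = W.erase u := ⟨_, rfl⟩
  have hW'c : W'.card ≤ s := by
    rw [hW', Finset.card_erase_of_mem hu]; omega
  -- choice of the scale
  let R : ℝ → ℤ := fun v => round ((v - u) * 4 ^ N)
  obtain ⟨i, hi, hgood⟩ := pigeon s W' hW'c
    (fun v i => ((4 : ℤ) ^ (N - (n + α + i * K) - K) ∣ R v) ∧ ¬ ((4 : ℤ) ^ (N - (n + α + i * K)) ∣ R v))
    (by
      intro v _ i j hij hj h1 h2
      apply h2.2
      refine dvd_trans ?_ h1.1
      apply pow_dvd_pow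
      have : (i + 1) * K ≤ j * K := Nat.mul_le_mul_right K hij
      have h3 : (i + 1) * K = i * K + K := by ring
      omega)
  obtain ⟨m, hm⟩ : ∃ m, m = n + α + i * K := ⟨_, rfl⟩
  rw [← hm] at hgood
  have hiK : i * K ≤ s * K := Nat.mul_le_mul_right K hi
  have hsK : (s + 1) * K = s * K + K := by ring
  have hK1 : 1 ≤ K := by omega
  have hmN : m + K ≤ N := by omega
  have hnm : n ≤ m := by omega
  obtain ⟨r, hr'⟩ : ∃ r, N = m + 1 + r := ⟨N - (m + 1), by omega⟩
  have hscm := sc_pos m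
  have hrm0 := rh_pos m
  have hrmn : rh m ≤ rh n := rh_anti hnm
  have hNm : sc N ≤ sc m := sc_anti (by omega)
  have hnN : n ≤ N := by omega
  -- the point g
  obtain ⟨M, hM⟩ : ∃ M : ℤ, M = ⌊(q - u) / sc m - 1 / 2⌋ := ⟨_, rfl⟩
  have hM1 : (M : ℝ) ≤ (q - u) / sc m - 1 / 2 := by rw [hM]; exact Int.floor_le _
  have hM2 : (q - u) / sc m - 1 / 2 < M + 1 := by rw [hM]; exact Int.lt_floor_add_one _
  obtain ⟨g, hg⟩ : ∃ g, g = u + ((M : ℝ) + 1 / 2) * sc m := ⟨_, rfl⟩
  have hdiv : (q - u) / sc m * sc m = q - u := div_mul_cancel₀ _ hscm.ne'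
  have hg1 : g ≤ q := by
    have := mul_le_mul_of_nonneg_right hM1 hscm.le
    rw [sub_mul, hdiv] at this
    rw [hg]; linarith
  have hg2 : q - sc m < g := by
    have := mul_lt_mul_of_pos_right hM2 hscm
    rw [sub_mul, hdiv] at this
    rw [hg]; linarith
  obtain ⟨φ, hφ0, hφ1, hgap⟩ := gap hnm hr' hr u M
  rw [← hg] at hgap
  have hscmn : sc m ≤ ε / 8 * sc n := by
    have : sc m ≤ sc (α + n) := sc_anti (by omega)
    rw [sc_add] at this
    have h2 : sc α ≤ ε / 8 := hα.le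
    exact this.trans (mul_le_mul_of_nonneg_right h2 hscn.le)
  -- the integers B
  let B : ℝ → ℤ := fun v => 4 ^ r * (4 * M + 2) - R v
  have hBg : ∀ v, v + B v * sc N - g = (v - u) - R v * sc N := by
    intro v
    have h1 : ((4 : ℝ) ^ r * (4 * M + 2)) * sc N = (M + 1 / 2) * sc m := by
      rw [hr', sc_add, sc_succ]
      have := four_sc r
      calc (4 : ℝ) ^ r * (4 * M + 2) * (sc m / 4 * sc r) = (4 ^ r * sc r) * ((4 * M + 2) * (sc m / 4)) := by ring
        _ = (M + 1 / 2) * sc m := by rw [this]; ring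
    have h2 : ((B v : ℤ) : ℝ) = (4 : ℝ) ^ r * (4 * M + 2) - R v := by
      simp only [B]; push_cast; ring
    rw [h2, sub_mul, h1, hg]
    ring
  have hB0 : ∀ v ∈ W', |v + B v * sc N - g| ≤ sc N / 2 := by
    intro v _
    rw [hBg]
    have h1 := abs_sub_round ((v - u) * 4 ^ N)
    have h2 : (v - u) - R v * sc N = ((v - u) * 4 ^ N - R v) * sc N := by
      rw [sub_mul, mul_assoc, four_sc, mul_one]
    rw [h2, abs_mul, abs_of_pos hscN]
    have := mul_le_mul_of_nonneg_right h1 hscN.le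
    simp only [R] at *
    linarith
  have hB : ∀ v ∈ W', ∀ b : ℕ, (b : ℤ) = B v → 1 ≤ b →
      Ph N b ≤ Ph N (b - 1) + rh N + rh (m + K) := by
    intro v hv b hb hb1
    have hrN := rh_pos N
    have hrmK := rh_pos (m + K)
    have hgv := hgood v hv
    simp only [not_and, not_not] at hgv
    by_cases hd : (4 : ℤ) ^ (N - m - K) ∣ R v
    · obtain ⟨t, ht⟩ := hgv hd
      have hNm' : N - m = r + 1 := by omega
      rw [hNm', pow_succ] at ht
      have hb2 : (b : ℤ) = 4 ^ r * (4 * (M - t) + 2) := by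
        rw [hb]; simp only [B]; rw [ht]; ring
      have hpos : 0 ≤ M - t := by
        by_contra hcon
        push Not at hcon
        have h4r : (0 : ℤ) < 4 ^ r := by positivity
        have : (4 : ℤ) ^ r * (4 * (M - t) + 2) < 0 := mul_neg_of_pos_of_neg h4r (by omega)
        omega
      obtain ⟨M', hM'⟩ : ∃ M' : ℕ, (M' : ℤ) = M - t := ⟨(M - t).toNat, by omega⟩
      rw [← hM'] at hb2
      have hb3 : b = 4 ^ r * (4 * M' + 2) := by exact_mod_cast hb2
      have := Ph_gap m r M'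
      rw [← hr', ← hb3] at this
      linarith
    · have hnd : ¬ (4 ^ (N - m - K) ∣ b) := by
        intro hdb
        apply hd
        have h1 : (4 : ℤ) ^ (N - m - K) ∣ (b : ℤ) := by exact_mod_cast hdb
        rw [hb] at h1
        have h2 : (4 : ℤ) ^ (N - m - K) ∣ 4 ^ r * (4 * M + 2) :=
          Dvd.dvd.mul_right (pow_dvd_pow _ (by omega)) _
        have h3 := dvd_sub h2 h1
        simp only [B, sub_sub_cancel] at h3
        exact h3
      have := Ph_fine (N - m - K) N b (by omega) hb1 hnd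
      rw [show N - (N - m - K) = m + K by omega] at this
      linarith
  have hrK := rh_pow m K
  have hrmK0 := rh_pos (m + K)
  -- lengths
  have hlenA : rh m / 2 ^ (s + 1) ≤ rh m / 2 ^ W'.card - 2 * rh (m + K) := by
    have h1 : rh m / 2 ^ s ≤ rh m / 2 ^ W'.card :=
      div_le_div_of_nonneg_left hrm0.le (by positivity) (pow_le_pow_right₀ (by norm_num) hW'c)
    have h2 : 2 * rh (m + K) ≤ rh m / 2 ^ s / 2 := by
      have h3 : rh m / 4 ^ K ≤ rh m / (4 * 2 ^ s) := by
        apply div_le_div_of_nonneg_left hrm0.le (by positivity)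
        rw [hK, pow_succ]
        have : (2 : ℝ) ^ s ≤ 4 ^ s := pow_le_pow_left₀ (by norm_num) (by norm_num) s
        linarith
      have h4 : rh m / (4 * 2 ^ s) = rh m / 2 ^ s / 4 := by rw [div_div]; congr 1; ring
      linarith
    have h5 : rh m / 2 ^ (s + 1) = rh m / 2 ^ s / 2 := by rw [pow_succ, div_div]
    linarith
  have hpos2 : 0 < rh m / 2 ^ (s + 1) := by positivity
  have hlen0 : g - φ - (g - φ - rh m) = rh m := by ring
  obtain ⟨p', q', W'', h1, h2, h3, h4, h5⟩ := iter hnN hr g (rh (m + K)) hrmK0.le W' B hB0 hB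
    (g - φ - rh m) (g - φ) (by linarith) (by linarith) (by rw [hlen0]; linarith)
  rw [hlen0] at h3
  refine hn1 N (by omega) W'' (h4.trans hW'c) p' q' ?_ ?_
  · have h6 : ε' * sc N ≤ rh m / 2 ^ (s + 1) := by
      rw [hε', div_mul_eq_mul_div]
      apply div_le_div_of_nonneg_right _ (by positivity)
      have h7 := rh_ge m
      have h8 : (1 / 16 : ℝ) ^ (α + s * K + 1) / 2 * sc N = (1 / 16 : ℝ) ^ (n + (α + s * K + 1)) / 2 := by
        rw [hN, sc_two, pow_add _ n]; ring
      have h9 : (1 / 16 : ℝ) ^ (n + (α + s * K + 1)) ≤ (1 / 16 : ℝ) ^ (m + 1) :=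
        pow_le_pow_of_le_one (by norm_num) (by norm_num) (by omega)
      linarith
    linarith
  · intro x hx1 hx2
    obtain ⟨v, hv, hxv⟩ := hcov x (by linarith) (by linarith)
    have hvu : v ≠ u := by
      rintro rfl
      exact hgap x (by linarith) (by linarith) hxv
    exact h5 x hx1 hx2 v (by rw [hW']; exact Finset.mem_erase.2 ⟨hvu, hv⟩) hxv

theorem NC_all (s : ℕ) : NC s := by
  induction s with
  | zero => exact NC_zero
  | succ s ih => exact NC_succ s ih

theorem T_zero_gap (a b : ℝ) (hab : a < b) : ∃ z, a < z ∧ z < b ∧ z ∉ T 0 := by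
  classical
  by_contra hcon
  push Not at hcon
  obtain ⟨κ, hκ⟩ : ∃ κ, κ = b - a := ⟨_, rfl⟩
  have hκ0 : 0 < κ := by rw [hκ]; linarith
  obtain ⟨s, hs⟩ := exists_nat_gt (4 / κ)
  obtain ⟨n0, hn0⟩ := NC_all s 1 one_pos
  obtain ⟨n1, hn1⟩ := exists_pow_lt_of_lt_one (show (0 : ℝ) < κ / 2 by linarith)
    (show (1 / 4 : ℝ) < 1 by norm_num)
  obtain ⟨n, hn⟩ : ∃ n, n = max n0 n1 := ⟨_, rfl⟩
  have hsn := sc_pos n
  have hsc : sc n < κ / 2 := lt_of_le_of_lt (sc_anti (by omega : n1 ≤ n)) hn1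
  obtain ⟨Q, hQ⟩ : ∃ Q : ℕ, Q = ⌊κ / sc n⌋₊ := ⟨_, rfl⟩
  have hQ1 : (Q : ℝ) ≤ κ / sc n := by rw [hQ]; exact Nat.floor_le (by positivity)
  have hQ2 : κ / sc n < Q + 1 := by rw [hQ]; exact Nat.lt_floor_add_one _
  have hQ3 : (2 : ℝ) < κ / sc n := by rw [lt_div_iff₀ hsn]; linarith
  have hQ4 : Q * sc n ≤ κ := by
    have := mul_le_mul_of_nonneg_right hQ1 hsn.le
    rwa [div_mul_cancel₀ _ hsn.ne'] at this
  let r : ℕ → ℕ → Prop := fun i j => ∃ x, a + i * sc n < x ∧ x < a + (i + 1) * sc n ∧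
    x - (j * sc n - Ph n j) ∈ T n
  have hcount : ∃ i ∈ Finset.range Q, ((Finset.range (4 ^ n)).filter (fun j => r i j)).card ≤ s := by
    by_contra hno
    push Not at hno
    have h := Finset.card_mul_le_card_mul (s := Finset.range Q) (t := Finset.range (4 ^ n)) r
      (m := s + 1) (n := 2) (fun i hi => hno i hi) (by
        intro j _
        obtain ⟨z, hz⟩ : ∃ z, z = (j * sc n - Ph n j - a) / sc n := ⟨_, rfl⟩
        have hz2 : z * sc n = j * sc n - Ph n j - a := by rw [hz]; exact div_mul_cancel₀ _ hsn.ne'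
        have hsub : (Finset.bipartiteBelow r (Finset.range Q) j) ⊆ {⌊z⌋.toNat, (⌊z⌋ + 1).toNat} := by
          intro i hi
          obtain ⟨_, x, hx1, hx2, hT⟩ := (Finset.mem_bipartiteBelow r).1 hi
          obtain ⟨h1, h2⟩ := T_le hT
          have h3 := rh_pos n
          have h4 : (i : ℝ) < z + 1 := by
            by_contra hc
            push Not at hc
            have := mul_le_mul_of_nonneg_right hc hsn.le
            linarith
          have h5 : z - 1 < (i : ℝ) := by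
            by_contra hc
            push Not at hc
            have := mul_le_mul_of_nonneg_right hc hsn.le
            linarith
          have h6 := Int.floor_le z
          have h7 := Int.lt_floor_add_one z
          have h8 : ((i : ℤ) : ℝ) < ((⌊z⌋ + 2 : ℤ) : ℝ) := by push_cast; linarith
          have h9 : ((⌊z⌋ - 1 : ℤ) : ℝ) < ((i : ℤ) : ℝ) := by push_cast; linarith
          have h10 : (i : ℤ) < ⌊z⌋ + 2 := by exact_mod_cast h8
          have h11 : ⌊z⌋ - 1 < (i : ℤ) := by exact_mod_cast h9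
          rw [Finset.mem_insert, Finset.mem_singleton]
          omega
        exact (Finset.card_le_card hsub).trans Finset.card_le_two)
    rw [Finset.card_range, Finset.card_range] at h
    have h' : (Q : ℝ) * (s + 1) ≤ 4 ^ n * 2 := by exact_mod_cast h
    have h4 : (4 : ℝ) ^ n = 1 / sc n := by
      rw [eq_div_iff hsn.ne']; exact four_sc n
    have h5 : κ / sc n / 2 < Q := by linarith
    have h6 : 4 / κ < s + 1 := by linarith
    have h7 : 4 < (s + 1) * κ := by rwa [div_lt_iff₀ hκ0] at h6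
    have h8 : κ / sc n / 2 * (s + 1) ≤ 1 / sc n * 2 := by
      rw [← h4]
      have : (0 : ℝ) < s + 1 := by positivity
      exact (mul_le_mul_of_nonneg_right h5.le this.le).trans h'
    have h9 : κ / sc n / 2 * (s + 1) = (s + 1) * κ / (2 * sc n) := by field_simp
    have h10 : 1 / sc n * 2 = 4 / (2 * sc n) := by field_simp; norm_num
    rw [h9, h10, div_le_div_iff_of_pos_right (by positivity)] at h8
    linarith
  obtain ⟨i, hi, hcard⟩ := hcount
  rw [Finset.mem_range] at hi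
  refine hn0 n (by omega) (((Finset.range (4 ^ n)).filter (fun j => r i j)).image
    (fun j : ℕ => (j : ℝ) * sc n - Ph n j)) (Finset.card_image_le.trans hcard)
    (a + i * sc n) (a + (i + 1) * sc n) (by linarith) ?_
  intro x hx1 hx2
  have hi1 : ((i : ℝ) + 1) * sc n ≤ Q * sc n := by
    apply mul_le_mul_of_nonneg_right _ hsn.le
    exact_mod_cast hi
  have hi0 : 0 ≤ (i : ℝ) * sc n := by positivity
  have hxT := hcon x (by linarith) (by linarith)
  obtain ⟨j, hj, hT⟩ := blocks (Nat.zero_le n) hxT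
  rw [Nat.sub_zero] at hj
  have hT' : x - ((j : ℝ) * sc n - Ph n j) ∈ T n := by
    convert hT using 1; ring
  exact ⟨_, Finset.mem_image_of_mem _ (Finset.mem_filter.2 ⟨Finset.mem_range.2 hj, x, hx1, hx2, hT'⟩), hT'⟩

end Pool.Agent.V11293.ACH
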